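import Mathlib

set_option autoImplicit false
set_option linter.unusedSectionVars false

namespace Pool.Agent.Results.MP_a9eae2_co.BalancedDeBruijn

open Finset Equiv

/-! ## The statement -/

/-- The number of starting positions `i` (indices modulo `n`) at which the word `w` of length `l` occurs in the
cyclic sequence `a` of length `n`. -/
def occurrences {A : Type*} [DecidableEq A] {n : ℕ} [NeZero n] (a : ZMod n → A) {l : ℕ} (w : Fin l → A) : ℕ :=
  (univ.filter fun i : ZMod n => ∀ j : Fin l, a (i + ((j : ℕ) : ZMod n)) = w j).card

/-- `a` is a generalized de Bruijn sequence with parameters `(n, l, k)`: every word of length `l` occurs at no more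
than `k` starting positions. -/
def IsGDB {A : Type*} [DecidableEq A] {n : ℕ} [NeZero n] (a : ZMod n → A) (l k : ℕ) : Prop :=
  ∀ w : Fin l → A, occurrences a w ≤ k

/-- every letter occurs exactly `n / m` times, where `m` is the number of letters -/
def IsBalanced {A : Type*} [Fintype A] [DecidableEq A] {n : ℕ} [NeZero n] (a : ZMod n → A) : Prop :=
  ∀ x : A, Fintype.card A * (univ.filter fun i : ZMod n => a i = x).card = n

/-! ## Words read along a permutation -/

section word

variable {E A : Type*}

/-- the word of length `j` read from position `e` along the permutation `π` -/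
def word (π : Perm E) (a : E → A) : ℕ → E → List A
  | 0, _ => []
  | j + 1, e => a e :: word π a j (π e)

theorem word_succ (π : Perm E) (a : E → A) (j : ℕ) (e : E) : word π a (j + 1) e = a e :: word π a j (π e) := rfl

theorem word_length (π : Perm E) (a : E → A) (j : ℕ) (e : E) : (word π a j e).length = j := by
  induction j generalizing e with
  | zero => rfl
  | succ j ih => simp [word, ih]

theorem word_take (π : Perm E) (a : E → A) (j : ℕ) (e : E) : (word π a (j + 1) e).take j = word π a j e := by
  induction j generalizing e with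
  | zero => simp [word]
  | succ j ih =>
    rw [word, List.take_succ_cons, ih]
    rfl

theorem word_get (π : Perm E) (a : E → A) (l : ℕ) (e : E) (w : Fin l → A) :
    word π a l e = List.ofFn w ↔ ∀ j : Fin l, a ((π ^ (j : ℕ)) e) = w j := by
  induction l generalizing e with
  | zero => simp [word]
  | succ l ih =>
    rw [word, List.ofFn_succ, List.cons.injEq, ih, Fin.forall_fin_succ]
    simp [pow_succ]

end word

/-! ## Merging cycles -/

section merge

variable {E A : Type*} [Fintype E] [DecidableEq E] [DecidableEq A]

theorem mem_of_closed (π : Perm E) (S : Set E) (h : ∀ x ∈ S, π x ∈ S) (f : E) (hf : π f ∈ S) : f ∈ S := by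
  have h1 : ∀ n : ℕ, (π ^ n) (π f) ∈ S := by
    intro n
    induction n with
    | zero => simpa using hf
    | succ n ih => rw [pow_succ', Perm.mul_apply]; exact h _ ih
  have h2 : 0 < orderOf π := orderOf_pos π
  have h3 := h1 (orderOf π - 1)
  rw [← Perm.mul_apply, ← pow_succ, Nat.sub_add_cancel h2, pow_orderOf_eq_one] at h3
  simpa using h3

theorem merge_sameCycle (π : Perm E) (e f : E) (hef : ¬ π.SameCycle e f) :
    (π * swap e f).SameCycle e f ∧ ∀ x, π.SameCycle e x → (π * swap e f).SameCycle e x := by
  set π' := π * swap e f with hπ'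
  have he : π' e = π f := by simp [hπ']
  have hf : π' f = π e := by simp [hπ']
  have ho : ∀ x, x ≠ e → x ≠ f → π' x = π x := by
    intro x h1 h2
    simp [hπ', swap_apply_of_ne_of_ne h1 h2]
  have hstep : ∀ x, π'.SameCycle e x → π'.SameCycle e (π' x) := fun x hx => hx.apply_right
  have hfO : π'.SameCycle e f := by
    by_contra hcon
    have h1 : f ∈ {x | π'.SameCycle e x ∧ π.SameCycle f x} := by
      refine mem_of_closed π _ ?_ f ?_
      · rintro x ⟨h1, h2⟩
        have hxe : x ≠ e := by
          rintro rfl
          exact hef h2.symm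
        have hxf : x ≠ f := by
          rintro rfl
          exact hcon h1
        refine ⟨?_, h2.apply_right⟩
        rw [← ho x hxe hxf]
        exact hstep x h1
      · refine ⟨?_, (Perm.SameCycle.refl π f).apply_right⟩
        rw [← he]
        exact hstep e (Perm.SameCycle.refl _ _)
    exact hcon h1.1
  refine ⟨hfO, ?_⟩
  have hcl : ∀ x, π'.SameCycle e x → π'.SameCycle e (π x) := by
    intro x hx
    by_cases hxe : x = e
    · subst hxe
      rw [← hf]
      exact hstep _ hfO
    by_cases hxf : x = f
    · subst hxf
      rw [← he]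
      exact hstep _ (Perm.SameCycle.refl _ _)
    rw [← ho x hxe hxf]
    exact hstep _ hx
  intro x hx
  obtain ⟨n, rfl⟩ := hx.exists_nat_pow_eq
  clear hx
  induction n with
  | zero => exact Perm.SameCycle.refl _ _
  | succ n ih =>
    rw [pow_succ', Perm.mul_apply]
    exact hcl _ ih

/-- the change of words under a swap -/
theorem word_swap (π : Perm E) (a : E → A) (p : ℕ) (e f : E)
    (h : word π a p (π e) = word π a p (π f)) (j : ℕ) (hj : j ≤ p + 1) (g : E) :
    word (π * swap e f) a j g = word π a j g := by
  have hpre : ∀ i, i ≤ p → word π a i (π e) = word π a i (π f) := by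
    intro i hi
    induction hi using Nat.decreasingInduction with
    | self => exact h
    | of_succ i hi ih =>
      rw [← word_take π a i (π e), ← word_take π a i (π f), ih]
  induction j generalizing g with
  | zero => rfl
  | succ j ih =>
    rw [word, word, ih (by omega)]
    congr 1
    by_cases hge : g = e
    · subst hge
      have : (π * swap g f) g = π f := by simp
      rw [this]
      exact (hpre j (by omega)).symm
    by_cases hgf : g = f
    · subst hgf
      have : (π * swap e g) g = π e := by simp
      rw [this]
      exact hpre j (by omega)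
    have : (π * swap e f) g = π g := by simp [swap_apply_of_ne_of_ne hge hgf]
    rw [this]

/-- the main merging theorem -/
theorem merge (a : E → A) (k : ℕ) (hk : 1 ≤ k) (p : ℕ) (v : E → List A)
    (hall : ∀ w : List A, w.length = p + 1 → ∃ e, v e = w) (e0 : E) (π0 : Perm E)
    (h0 : ∀ e, word π0 a (p + 1) e = v e)
    (h0' : ∀ w, (univ.filter fun e => word π0 a (p + 2) e = w).card ≤ k) :
    ∃ π : Perm E, (∀ w, (univ.filter fun e => word π a (p + 2) e = w).card ≤ k) ∧ ∀ x, π.SameCycle e0 x := by
  classical
  let P : Perm E → Prop := fun π => (∀ e, word π a (p + 1) e = v e) ∧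
    ∀ w, (univ.filter fun e => word π a (p + 2) e = w).card ≤ k
  obtain ⟨π, hπP, hmax⟩ := Finset.exists_max_image (univ.filter P)
    (fun π => (univ.filter fun x => π.SameCycle e0 x).card) ⟨π0, by simp [P, h0, h0']⟩
  rw [mem_filter] at hπP
  obtain ⟨-, hv, hcount⟩ := hπP
  have key : ∀ e f, π.SameCycle e0 e → word π a p (π e) = word π a p (π f) →
      (∀ w, (univ.filter fun g => word (π * swap e f) a (p + 2) g = w).card ≤ k) → π.SameCycle e0 f := by
    intro e f he hw hc
    by_contra hf
    have hef : ¬ π.SameCycle e f := fun h => hf (he.trans h)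
    obtain ⟨hm1, hm2⟩ := merge_sameCycle π e f hef
    have hP' : P (π * swap e f) := by
      refine ⟨fun g => ?_, hc⟩
      rw [word_swap π a p e f hw (p + 1) le_rfl g]
      exact hv g
    have h1 := hmax _ (mem_filter.2 ⟨mem_univ _, hP'⟩)
    have hee : (π * swap e f).SameCycle e e0 := hm2 _ he.symm
    have h2 : (univ.filter fun x => π.SameCycle e0 x) ⊂
        (univ.filter fun x => (π * swap e f).SameCycle e0 x) := by
      rw [Finset.ssubset_iff_of_subset]
      · refine ⟨f, ?_, ?_⟩
        · rw [mem_filter]
          exact ⟨mem_univ _, hee.symm.trans hm1⟩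
        · rw [mem_filter]
          exact fun h => hf h.2
      · intro x hx
        rw [mem_filter] at hx ⊢
        exact ⟨mem_univ _, hee.symm.trans (hm2 x (he.symm.trans hx.2))⟩
    exact absurd h1 (not_le.2 (Finset.card_lt_card h2))
  -- property 1
  have prop1 : ∀ e f, π.SameCycle e0 e → word π a (p + 1) e = word π a (p + 1) f → π.SameCycle e0 f := by
    intro e f he hw
    have hw' := hw
    rw [word_succ π a p e, word_succ π a p f, List.cons.injEq] at hw'
    refine key e f he hw'.2 ?_
    intro w
    have hwd : ∀ g, word (π * swap e f) a (p + 2) g = word π a (p + 2) (swap e f g) := by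
      intro g
      rw [word_succ (π * swap e f) a (p + 1) g, word_swap π a p e f hw'.2 (p + 1) le_rfl,
        word_succ π a (p + 1) (swap e f g)]
      by_cases hge : g = e
      · subst hge
        simp [hw'.1]
      by_cases hgf : g = f
      · subst hgf
        simp [hw'.1]
      simp [swap_apply_of_ne_of_ne hge hgf]
    refine le_trans (le_of_eq ?_) (hcount w)
    refine Finset.card_equiv (swap e f) ?_
    intro g
    rw [mem_filter, mem_filter, hwd]
    simp
  -- property 2
  have prop2 : ∀ e f, π.SameCycle e0 e → word π a p (π e) = word π a p (π f) → π.SameCycle e0 f := by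
    intro e f he hw
    by_contra hf
    refine hf (key e f he hw ?_)
    have hwd : ∀ g, word (π * swap e f) a (p + 2) g = a g :: word π a (p + 1) ((π * swap e f) g) := by
      intro g
      rw [word_succ (π * swap e f) a (p + 1) g, word_swap π a p e f hw (p + 1) le_rfl]
    have hback : ∀ g, π.SameCycle e0 (π g) → π.SameCycle e0 g := fun g hg => by
      rwa [Perm.sameCycle_apply_right] at hg
    have hforw : ∀ g, π.SameCycle e0 g → π.SameCycle e0 (π g) := fun g hg => hg.apply_right
    have n1 : ∀ g, word π a (p + 2) g ≠ a e :: word π a (p + 1) (π f) := by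
      intro g hg
      rw [word_succ π a (p + 1) g, List.cons.injEq] at hg
      have h1 : word π a (p + 1) g = word π a (p + 1) e := by
        rw [word_succ π a p g, word_succ π a p e, hg.1, hw, ← word_take π a p (π g), hg.2, word_take]
      have h2 : π.SameCycle e0 g := prop1 e g he h1.symm
      exact hf (hback f (prop1 (π g) (π f) (hforw g h2) hg.2))
    have n2 : ∀ g, word π a (p + 2) g ≠ a f :: word π a (p + 1) (π e) := by
      intro g hg
      rw [word_succ π a (p + 1) g, List.cons.injEq] at hg
      have h1 : word π a (p + 1) g = word π a (p + 1) f := by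
        rw [word_succ π a p g, word_succ π a p f, hg.1, ← hw, ← word_take π a p (π g), hg.2, word_take]
      have h2 : π.SameCycle e0 g := hback g (prop1 (π e) (π g) (hforw e he) hg.2.symm)
      exact hf (prop1 g f h2 h1)
    have n3 : a e :: word π a (p + 1) (π f) ≠ a f :: word π a (p + 1) (π e) := by
      intro h
      rw [List.cons.injEq] at h
      exact hf (hback f (prop1 (π e) (π f) (hforw e he) h.2.symm))
    have we : word (π * swap e f) a (p + 2) e = a e :: word π a (p + 1) (π f) := by
      rw [hwd]; simp
    have wf : word (π * swap e f) a (p + 2) f = a f :: word π a (p + 1) (π e) := by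
      rw [hwd]; simp
    have wo : ∀ g, g ≠ e → g ≠ f → word (π * swap e f) a (p + 2) g = word π a (p + 2) g := by
      intro g h1 h2
      rw [hwd, word_succ π a (p + 1) g]
      simp [swap_apply_of_ne_of_ne h1 h2]
    intro w
    by_cases hw1 : w = a e :: word π a (p + 1) (π f)
    · refine le_trans (Finset.card_le_one.2 ?_) hk
      have : ∀ g ∈ (univ.filter fun g => word (π * swap e f) a (p + 2) g = w), g = e := by
        intro g hg
        rw [mem_filter] at hg
        by_contra hge
        by_cases hgf : g = f
        · subst hgf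
          rw [wf, hw1] at hg
          exact n3 hg.2.symm
        · rw [wo g hge hgf, hw1] at hg
          exact n1 g hg.2
      intro x hx y hy
      rw [this x hx, this y hy]
    by_cases hw2 : w = a f :: word π a (p + 1) (π e)
    · refine le_trans (Finset.card_le_one.2 ?_) hk
      have : ∀ g ∈ (univ.filter fun g => word (π * swap e f) a (p + 2) g = w), g = f := by
        intro g hg
        rw [mem_filter] at hg
        by_contra hgf
        by_cases hge : g = e
        · subst hge
          rw [we, hw2] at hg
          exact n3 hg.2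
        · rw [wo g hge hgf, hw2] at hg
          exact n2 g hg.2
      intro x hx y hy
      rw [this x hx, this y hy]
    · refine le_trans (Finset.card_le_card ?_) (hcount w)
      intro g hg
      rw [mem_filter] at hg ⊢
      refine ⟨mem_univ _, ?_⟩
      by_cases hge : g = e
      · subst hge
        exact absurd (we ▸ hg.2).symm hw1
      by_cases hgf : g = f
      · subst hgf
        exact absurd (wf ▸ hg.2).symm hw2
      rw [← wo g hge hgf]
      exact hg.2
  refine ⟨π, hcount, ?_⟩
  -- connectivity
  let U : List A → Prop := fun u => ∃ g, π.SameCycle e0 g ∧ word π a p g = u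
  have hU : ∀ g, U (word π a p g) → π.SameCycle e0 g := by
    rintro g ⟨g', h1, h2⟩
    have h3 : π.SameCycle e0 (π.symm g') := by
      have : π.SameCycle e0 (π (π.symm g')) := by simpa using h1
      rwa [Perm.sameCycle_apply_right] at this
    have h4 := prop2 (π.symm g') (π.symm g) h3 (by simpa using h2)
    have h5 : π.SameCycle e0 (π (π.symm g)) := h4.apply_right
    simpa using h5
  have hstep : ∀ w : List A, w.length = p + 1 → U (w.take p) → U w.tail := by
    intro w hw hUw
    obtain ⟨g, hg⟩ := hall w hw
    rw [← hv] at hg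
    have h1 : word π a p g = w.take p := by rw [← hg, word_take]
    have h2 : word π a p (π g) = w.tail := by rw [← hg]; rfl
    rw [← h1] at hUw
    exact ⟨π g, (hU g hUw).apply_right, h2⟩
  have hallU : ∀ u : List A, u.length = p → U u := by
    intro u hu
    set z := word π a p e0 ++ u with hz
    have hzl : z.length = 2 * p := by rw [hz, List.length_append, word_length, hu]; omega
    have hi : ∀ i, i ≤ p → U ((z.drop i).take p) := by
      intro i hi
      induction i with
      | zero =>
        refine ⟨e0, Perm.SameCycle.refl _ _, ?_⟩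
        rw [hz, List.drop_zero, List.take_append_of_le_length (by rw [word_length])]
        rw [List.take_of_length_le (by rw [word_length])]
      | succ i ih =>
        have h1 := ih (by omega)
        have h2 := hstep ((z.drop i).take (p + 1)) (by
          rw [List.length_take, List.length_drop, hzl]; omega) (by
          rw [List.take_take, min_eq_left (by omega)]; exact h1)
        have h3 : ((z.drop i).take (p + 1)).tail = (z.drop (i + 1)).take p := by
          rw [← List.drop_one, List.drop_take, List.drop_drop, Nat.add_sub_cancel]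
        rwa [h3] at h2
    have h4 := hi p le_rfl
    have h5 : (z.drop p).take p = u := by
      rw [hz, List.drop_append_of_le_length (by rw [word_length])]
      rw [List.drop_of_length_le (by rw [word_length]), List.nil_append]
      rw [List.take_of_length_le (by rw [hu])]
    rwa [h5] at h4
  intro x
  exact hU x (hallU _ (word_length _ _ _ _))

end merge

/-! ## Construction of a union of cyclic sequences -/

section build

variable {m : ℕ} [NeZero m]

/-- Words of length `p + 1` over the alphabet `ZMod m`. -/
abbrev W (m p : ℕ) := Fin (p + 1) → ZMod m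

/-- flow balance: every word of length `p` has as many left as right extensions in `S` -/
def Flow {p : ℕ} (S : Finset (W m p)) : Prop :=
  ∀ u : Fin p → ZMod m, (univ.filter fun x : ZMod m => (Fin.cons x u : W m p) ∈ S).card =
    (univ.filter fun y : ZMod m => (Fin.snoc u y : W m p) ∈ S).card

/-- letter balance: every letter is the first letter of exactly `t` elements of `S` -/
def Letter {p : ℕ} (S : Finset (W m p)) (t : ℕ) : Prop :=
  ∀ x : ZMod m, (S.filter fun v => v 0 = x).card = t

theorem exists_rho {p : ℕ} (S : Finset (W m p)) (hS : Flow S) :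
    ∃ ρ : (Fin p → ZMod m) → Perm (ZMod m), ∀ u x, (Fin.cons x u : W m p) ∈ S ↔ (Fin.snoc u (ρ u x) : W m p) ∈ S := by
  have h : ∀ u : Fin p → ZMod m, ∃ r : Perm (ZMod m), ∀ x,
      (Fin.cons x u : W m p) ∈ S ↔ (Fin.snoc u (r x) : W m p) ∈ S := by
    intro u
    have hc := hS u
    rw [← Fintype.card_subtype, ← Fintype.card_subtype] at hc
    let e := Fintype.equivOfCardEq hc
    refine ⟨e.extendSubtype, fun x => ?_⟩
    constructor
    · intro hx
      exact e.extendSubtype_mem x hx
    · intro hx
      by_contra hx'
      exact e.extendSubtype_not_mem x hx' hx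
  choose ρ hρ using h
  exact ⟨ρ, hρ⟩

/-- the shift of words determined by `ρ` and `s` -/
def T {p : ℕ} (ρ : (Fin p → ZMod m) → Perm (ZMod m)) (s : ZMod m) : Perm (W m p) where
  toFun v := Fin.snoc (Fin.tail v) (ρ (Fin.tail v) (v 0) + s)
  invFun v := Fin.cons ((ρ (Fin.init v)).symm (v (Fin.last p) - s)) (Fin.init v)
  left_inv v := by simp
  right_inv v := by simp

/-- words with first letter `x` -/
theorem card_first (p : ℕ) (x : ZMod m) : (univ.filter fun v : W m p => v 0 = x).card = m ^ p := by
  have h : (univ.filter fun v : W m p => v 0 = x) = univ.image (fun u : Fin p → ZMod m => (Fin.cons x u : W m p)) := by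
    ext v
    simp only [mem_filter, mem_univ, true_and, mem_image]
    constructor
    · rintro rfl
      exact ⟨Fin.tail v, Fin.cons_self_tail v⟩
    · rintro ⟨u, rfl⟩
      simp
  rw [h, Finset.card_image_of_injective _ (Fin.cons_right_injective (α := fun _ => ZMod m) x)]
  simp

theorem exists_ob (p k t : ℕ) [NeZero k] (ht : t ≤ k * m ^ (p + 1)) (S : Finset (W m p)) (hS : Flow S)
    (hL : Letter S (t % m ^ p)) :
    ∃ (σ : Perm (W m p × (Fin k × ZMod m))) (E : Finset (W m p × (Fin k × ZMod m))),
      (∀ e, Fin.init (σ e).1 = Fin.tail e.1) ∧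
      (∀ e e', e.1 = e'.1 → (σ e).1 = (σ e').1 → e.2.1 = e'.2.1 → e = e') ∧
      (∀ e ∈ E, σ e ∈ E) ∧
      (∀ x, (E.filter fun e => e.1 0 = x).card = t) ∧
      (m ^ p ≤ t → ∀ v, ∃ e ∈ E, e.1 = v) := by
  obtain ⟨ρ, hρ⟩ := exists_rho S hS
  have hm : 0 < m := Nat.pos_of_ne_zero (NeZero.ne m)
  have hmp : 0 < m ^ p := pow_pos hm p
  set q := t / m ^ p with hq
  have hqle : q ≤ k * m := by
    rw [hq]
    refine Nat.div_le_of_le_mul ?_
    rw [pow_succ] at ht
    calc t ≤ k * (m ^ p * m) := ht
      _ = m ^ p * (k * m) := by ring
  have hdm : m ^ p * q + t % m ^ p = t := Nat.div_add_mod t (m ^ p)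
  -- the set Q
  have hQ : ∃ Q : Finset (Fin k × ZMod m), Q.card = q ∧ (((0 : Fin k), (0 : ZMod m)) ∉ Q ∨ S = ∅) := by
    rcases Nat.lt_or_ge q (k * m) with h | h
    · have hc : (univ.erase ((0 : Fin k), (0 : ZMod m))).card = k * m - 1 := by
        rw [Finset.card_erase_of_mem (mem_univ _), Finset.card_univ, Fintype.card_prod, Fintype.card_fin, ZMod.card]
      obtain ⟨Q, hQ1, hQ2⟩ := Finset.exists_subset_card_eq (s := univ.erase ((0 : Fin k), (0 : ZMod m))) (n := q)
        (by rw [hc]; omega)
      refine ⟨Q, hQ2, Or.inl fun h0 => ?_⟩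
      have := hQ1 h0
      simp at this
    · have hqe : q = k * m := le_antisymm hqle h
      refine ⟨univ, ?_, Or.inr ?_⟩
      · rw [Finset.card_univ, Fintype.card_prod, Fintype.card_fin, ZMod.card, hqe]
      · have h1 : t % m ^ p = 0 := by
          have h2 : m ^ p * q = k * m ^ (p + 1) := by rw [hqe]; ring
          rw [h2] at hdm
          exact Nat.le_zero.1 (Nat.le_of_add_le_add_left (hdm.le.trans ht))
        rw [h1] at hL
        rw [Finset.eq_empty_iff_forall_notMem]
        intro v hv
        have h3 := hL (v 0)
        rw [Finset.card_eq_zero, Finset.filter_eq_empty_iff] at h3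
        exact h3 hv rfl
  obtain ⟨Q, hQc, hQ0⟩ := hQ
  let σ : Perm (W m p × (Fin k × ZMod m)) :=
    { toFun := fun e => (T ρ e.2.2 e.1, e.2)
      invFun := fun e => ((T ρ e.2.2).symm e.1, e.2)
      left_inv := fun e => by simp
      right_inv := fun e => by simp }
  have hσ : ∀ e, σ e = (T ρ e.2.2 e.1, e.2) := fun e => rfl
  refine ⟨σ, univ ×ˢ Q ∪ S ×ˢ {((0 : Fin k), (0 : ZMod m))}, ?_, ?_, ?_, ?_, ?_⟩
  · intro e
    rw [hσ]
    simp [T]
  · rintro ⟨v, i, s⟩ ⟨v', i', s'⟩ h1 h2 h3
    simp only at h1 h3
    subst h1 h3
    rw [hσ, hσ] at h2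
    simp only [T, Equiv.coe_fn_mk] at h2
    have h4 := congrFun h2 (Fin.last p)
    simp only [Fin.snoc_last, add_right_inj] at h4
    rw [h4]
  · intro e he
    rw [mem_union, mem_product, mem_product, mem_singleton] at he ⊢
    rcases he with ⟨-, h⟩ | ⟨h1, h2⟩
    · exact Or.inl ⟨mem_univ _, h⟩
    · refine Or.inr ⟨?_, h2⟩
      rw [hσ, h2]
      simp only [T, Equiv.coe_fn_mk, add_zero]
      rw [← hρ, Fin.cons_self_tail]
      exact h1
  · intro x
    have hdisj : Disjoint ((univ : Finset (W m p)) ×ˢ Q) (S ×ˢ {((0 : Fin k), (0 : ZMod m))}) := by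
      rw [Finset.disjoint_left]
      rintro ⟨v, j⟩ h1 h2
      rw [mem_product, mem_singleton] at h2
      rw [mem_product] at h1
      rcases hQ0 with h | h
      · rw [h2.2] at h1
        exact h h1.2
      · rw [h] at h2
        simp at h2
    rw [Finset.filter_union, Finset.card_union_of_disjoint (Finset.disjoint_filter_filter hdisj)]
    have h1 : ((univ : Finset (W m p)) ×ˢ Q).filter (fun e => e.1 0 = x) = (univ.filter fun v : W m p => v 0 = x) ×ˢ Q := by
      ext ⟨v, j⟩
      simp
      tauto
    have h2 : (S ×ˢ {((0 : Fin k), (0 : ZMod m))}).filter (fun e => e.1 0 = x) =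
        (S.filter fun v => v 0 = x) ×ˢ {((0 : Fin k), (0 : ZMod m))} := by
      ext ⟨v, j⟩
      simp
      tauto
    rw [h1, h2, Finset.card_product, Finset.card_product, card_first, hQc, hL x, Finset.card_singleton, mul_one]
    exact hdm
  · intro htp v
    have hq1 : 0 < q := Nat.div_pos htp hmp
    rw [← hQc, Finset.card_pos] at hq1
    obtain ⟨j, hj⟩ := hq1
    exact ⟨(v, j), by simp [hj], rfl⟩

theorem exists_S (p t : ℕ) (ht : t ≤ m ^ p) : ∃ S : Finset (W m p), Flow S ∧ Letter S t := by
  induction p generalizing t with
  | zero =>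
    rw [pow_zero] at ht
    rcases Nat.le_one_iff_eq_zero_or_eq_one.1 ht with rfl | rfl
    · refine ⟨∅, ?_, ?_⟩
      · intro u; simp
      · intro x; simp
    · refine ⟨univ, ?_, ?_⟩
      · intro u; simp
      · intro x
        rw [card_first]
        simp
  | succ p ih =>
    have hm : 0 < m := Nat.pos_of_ne_zero (NeZero.ne m)
    obtain ⟨S, hS, hL⟩ := ih (t % m ^ p) (Nat.mod_lt _ (pow_pos hm p)).le
    obtain ⟨σ, E, h1, h2, h3, h4, -⟩ := exists_ob p 1 t (by rw [one_mul]; exact ht) S hS hL
    let Φ : W m p × (Fin 1 × ZMod m) → W m (p + 1) := fun e => Fin.snoc e.1 ((σ e).1 (Fin.last p))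
    have hΦ : ∀ e, Φ e = Fin.cons (e.1 0) (σ e).1 := by
      intro e
      have h5 : (σ e).1 = Fin.snoc (Fin.tail e.1) ((σ e).1 (Fin.last p)) := by
        rw [← h1 e, Fin.snoc_init_self]
      rw [h5, Fin.cons_snoc_eq_snoc_cons, Fin.cons_self_tail]
    have hinj : Function.Injective Φ := by
      intro e e' h
      have h5 : e.1 = e'.1 := by
        have := congrArg Fin.init h
        simpa [Φ] using this
      refine h2 e e' h5 ?_ (Subsingleton.elim _ _)
      rw [hΦ, hΦ] at h
      have := congrArg Fin.tail h
      simpa using this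
    refine ⟨E.image Φ, ?_, ?_⟩
    · intro v
      have hc1 : (E.filter fun e => (σ e).1 = v).card =
          (univ.filter fun x : ZMod m => (Fin.cons x v : W m (p + 1)) ∈ E.image Φ).card := by
        refine Finset.card_bij (fun e _ => e.1 0) ?_ ?_ ?_
        · intro e he
          rw [mem_filter] at he ⊢
          refine ⟨mem_univ _, ?_⟩
          rw [← he.2, ← hΦ]
          exact mem_image_of_mem _ he.1
        · intro e he e' he' h
          rw [mem_filter] at he he'
          apply hinj
          rw [hΦ, hΦ, he.2, he'.2, h]
        · intro x hx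
          rw [mem_filter, mem_image] at hx
          obtain ⟨-, e, he, hex⟩ := hx
          rw [hΦ] at hex
          obtain ⟨h5, h6⟩ := Fin.cons_inj.1 hex
          exact ⟨e, mem_filter.2 ⟨he, h6⟩, h5⟩
      have hc2 : (E.filter fun e => e.1 = v).card =
          (univ.filter fun y : ZMod m => (Fin.snoc v y : W m (p + 1)) ∈ E.image Φ).card := by
        refine Finset.card_bij (fun e _ => (σ e).1 (Fin.last p)) ?_ ?_ ?_
        · intro e he
          rw [mem_filter] at he ⊢
          refine ⟨mem_univ _, ?_⟩
          rw [← he.2]
          exact mem_image_of_mem _ he.1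
        · intro e he e' he' h
          rw [mem_filter] at he he'
          apply hinj
          simp only [Φ]
          rw [he.2, he'.2, h]
        · intro y hy
          rw [mem_filter, mem_image] at hy
          obtain ⟨-, e, he, hey⟩ := hy
          obtain ⟨h5, h6⟩ := Fin.snoc_inj.1 hey
          exact ⟨e, mem_filter.2 ⟨he, h5⟩, h6⟩
      rw [← hc1, ← hc2]
      -- the permutation `σ` gives the equality
      have hEσ : E.image σ = E := by
        refine Finset.eq_of_subset_of_card_le ?_ ?_
        · intro e he
          rw [mem_image] at he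
          obtain ⟨e', he', rfl⟩ := he
          exact h3 e' he'
        · rw [Finset.card_image_of_injective _ σ.injective]
      refine Finset.card_bij (fun e _ => σ e) ?_ ?_ ?_
      · intro e he
        rw [mem_filter] at he ⊢
        exact ⟨h3 e he.1, he.2⟩
      · intro e _ e' _ h
        exact σ.injective h
      · intro e he
        rw [mem_filter] at he
        have h5 : e ∈ E.image σ := by rw [hEσ]; exact he.1
        rw [mem_image] at h5
        obtain ⟨e', he', rfl⟩ := h5
        exact ⟨e', mem_filter.2 ⟨he', he.2⟩, rfl⟩
    · intro x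
      rw [Finset.filter_image, Finset.card_image_of_injective _ hinj]
      rw [← h4 x]
      congr 1

end build

/-! ## Single cyclic sequences -/

section final

theorem word_lab {E A : Type*} (π : Perm E) (a : E → A) (p : ℕ) (lab : E → Fin (p + 1) → A)
    (h0 : ∀ e, a e = lab e 0) (h1 : ∀ e, Fin.init (lab (π e)) = Fin.tail (lab e)) (j : ℕ) (hj : j ≤ p + 1) (e : E) :
    word π a j e = (List.ofFn (lab e)).take j := by
  induction j generalizing e with
  | zero => simp [word]
  | succ j ih =>
    rw [word_succ, ih (by omega)]
    have h2 : (List.ofFn (lab (π e))).take j = (List.ofFn (Fin.init (lab (π e)))).take j := by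
      rw [List.ofFn_succ', List.concat_eq_append, List.take_append_of_le_length (by simp; omega)]
      rfl
    rw [h2, h1, List.ofFn_succ, List.take_succ_cons, h0]
    rfl

variable {m : ℕ} [NeZero m]

theorem exists_seq (p : ℕ) : ∀ (k t n : ℕ) [NeZero n], 1 ≤ k → t ≤ k * m ^ p → n = m * t →
    ∃ a : ZMod n → ZMod m, IsGDB a (p + 1) k ∧ ∀ x, (univ.filter fun i => a i = x).card = t := by
  induction p with
  | zero =>
    intro k t n _ hk ht hn
    have hc : Fintype.card (ZMod n) = Fintype.card (ZMod m × Fin t) := by
      rw [ZMod.card, Fintype.card_prod, ZMod.card, Fintype.card_fin, hn]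
    let e := Fintype.equivOfCardEq hc
    have hcount : ∀ x, (univ.filter fun i => (e i).1 = x).card = t := by
      intro x
      have h1 : (univ.filter fun i => (e i).1 = x).card = (univ.filter fun y : ZMod m × Fin t => y.1 = x).card := by
        refine Finset.card_equiv e ?_
        intro i
        simp
      rw [h1]
      have h2 : (univ.filter fun y : ZMod m × Fin t => y.1 = x) = {x} ×ˢ univ := by
        ext ⟨y, j⟩
        simp [eq_comm]
      rw [h2]
      simp
    refine ⟨fun i => (e i).1, ?_, hcount⟩
    intro w
    have h3 : occurrences (fun i => (e i).1) w ≤ (univ.filter fun i => (e i).1 = w 0).card := by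
      refine Finset.card_le_card ?_
      intro i hi
      rw [mem_filter] at hi ⊢
      have := hi.2 0
      simp only [Fin.val_zero, Nat.cast_zero, add_zero] at this
      exact ⟨mem_univ _, this⟩
    rw [hcount] at h3
    rw [pow_zero, mul_one] at ht
    exact h3.trans ht
  | succ p ih =>
    intro k t n _ hk ht hn
    rcases Nat.lt_or_ge t (m ^ p) with htp | htp
    · obtain ⟨a, h1, h2⟩ := ih 1 t n le_rfl (by rw [one_mul]; exact htp.le) hn
      refine ⟨a, fun w => ?_, h2⟩
      refine le_trans ?_ ((h1 (fun j => w j.castSucc)).trans hk)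
      refine Finset.card_le_card ?_
      intro i hi
      rw [mem_filter] at hi ⊢
      exact ⟨mem_univ _, fun j => hi.2 j.castSucc⟩
    · have hm : 0 < m := Nat.pos_of_ne_zero (NeZero.ne m)
      have : NeZero k := ⟨by omega⟩
      obtain ⟨S, hS, hL⟩ := exists_S (m := m) p (t % m ^ p) (Nat.mod_lt _ (pow_pos hm p)).le
      obtain ⟨σ, E, h1, h2, h3, h4, h5⟩ := exists_ob p k t ht S hS hL
      have h5 := h5 htp
      have hcE : Fintype.card {e // e ∈ E} = n := by
        rw [Fintype.card_coe, Finset.card_eq_sum_card_fiberwise (f := fun e => e.1 0) (t := univ) (by simp [Set.MapsTo])]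
        simp only [h4]
        rw [Finset.sum_const, Finset.card_univ, ZMod.card, smul_eq_mul, hn]
      let π0 : Perm {e // e ∈ E} := σ.subtypePermOfFintype h3
      have hπ0 : ∀ e : {e // e ∈ E}, ((π0 e : {e // e ∈ E}) : W m p × (Fin k × ZMod m)) = σ e := fun e => rfl
      let a : {e // e ∈ E} → ZMod m := fun e => e.1.1 0
      let lab : {e // e ∈ E} → Fin (p + 1) → ZMod m := fun e => e.1.1
      have hword : ∀ j ≤ p + 1, ∀ e, word π0 a j e = (List.ofFn (lab e)).take j :=
        fun j hj e => word_lab π0 a p lab (fun _ => rfl) (fun e => h1 e.1) j hj e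
      have hword1 : ∀ e, word π0 a (p + 1) e = List.ofFn (lab e) := by
        intro e
        rw [hword _ le_rfl, List.take_of_length_le (by simp)]
      obtain ⟨e0, he0, -⟩ := h5 0
      have hcount : ∀ w, (univ.filter fun e => word π0 a (p + 2) e = w).card ≤ k := by
        intro w
        calc (univ.filter fun e => word π0 a (p + 2) e = w).card ≤ (univ : Finset (Fin k)).card := by
              refine Finset.card_le_card_of_injOn (fun e => e.1.2.1) (fun _ _ => mem_univ _) ?_
              intro e he e' he' hee
              rw [Finset.mem_coe, mem_filter] at he he'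
              have h6 : word π0 a (p + 2) e = word π0 a (p + 2) e' := he.2.trans he'.2.symm
              have h7 : lab e = lab e' := by
                have h8 : (word π0 a (p + 2) e).take (p + 1) = (word π0 a (p + 2) e').take (p + 1) := by rw [h6]
                rw [word_take, word_take, hword1, hword1] at h8
                exact List.ofFn_injective h8
              have h8 : lab (π0 e) = lab (π0 e') := by
                rw [word_succ π0 a (p + 1) e, word_succ π0 a (p + 1) e', List.cons.injEq, hword1, hword1] at h6
                exact List.ofFn_injective h6.2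
              exact Subtype.ext (h2 e.1 e'.1 h7 h8 hee)
          _ = k := by simp
      obtain ⟨π, hπ1, hπ2⟩ := merge a k hk p (fun e => List.ofFn (lab e)) (by
          intro w hw
          obtain ⟨e, he, hew⟩ := h5 (fun i : Fin (p + 1) => w[(i : ℕ)]'(by omega))
          refine ⟨⟨e, he⟩, ?_⟩
          show List.ofFn e.1 = w
          rw [hew]
          refine List.ext_getElem (by simp [hw]) ?_
          intro i h6 h7
          rw [List.getElem_ofFn]) ⟨e0, he0⟩ π0 hword1 hcount
      have hC : π.IsCycleOn ((univ : Finset {e // e ∈ E}) : Set {e // e ∈ E}) := by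
        rw [Finset.coe_univ]
        exact ⟨Set.bijOn_univ.2 π.bijective, fun x _ y _ => (hπ2 x).symm.trans (hπ2 y)⟩
      have hmod : ∀ i j : ℕ, (π ^ i) ⟨e0, he0⟩ = (π ^ j) ⟨e0, he0⟩ ↔ i ≡ j [MOD n] := by
        intro i j
        rw [hC.pow_apply_eq_pow_apply (mem_univ _), Finset.card_univ, hcE]
      let φ : ZMod n → {e // e ∈ E} := fun i => (π ^ i.val) ⟨e0, he0⟩
      have hφ : Function.Injective φ := by
        intro i j hij
        have := (hmod i.val j.val).1 hij
        exact ZMod.val_injective n (Nat.ModEq.eq_of_lt_of_lt this (ZMod.val_lt i) (ZMod.val_lt j))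
      have hφb : Function.Bijective φ := by
        rw [Fintype.bijective_iff_injective_and_card]
        exact ⟨hφ, by rw [ZMod.card, hcE]⟩
      have hadd : ∀ (i : ZMod n) (j : ℕ), φ (i + (j : ZMod n)) = (π ^ j) (φ i) := by
        intro i j
        show (π ^ (i + (j : ZMod n)).val) ⟨e0, he0⟩ = (π ^ j) ((π ^ i.val) ⟨e0, he0⟩)
        rw [← Perm.mul_apply, ← pow_add, hmod, ZMod.val_add, ZMod.val_natCast, Nat.add_comm j]
        exact (Nat.mod_modEq _ _).trans (Nat.ModEq.add_left _ (Nat.mod_modEq _ _))
      refine ⟨fun i => a (φ i), ?_, ?_⟩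
      · intro w
        refine le_trans ?_ (hπ1 (List.ofFn w))
        refine Finset.card_le_card_of_injOn φ ?_ (fun i _ j _ h => hφ h)
        intro i hi
        rw [Finset.mem_coe, mem_filter] at hi ⊢
        refine ⟨mem_univ _, ?_⟩
        rw [word_get]
        intro j
        rw [← hadd]
        exact hi.2 j
      · intro x
        have h6 : (univ.filter fun i => a (φ i) = x).card = (univ.filter fun e => a e = x).card := by
          refine Finset.card_equiv (Equiv.ofBijective φ hφb) ?_
          intro i
          simp
        rw [h6, ← h4 x]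
        refine Finset.card_bij (fun e _ => e.1) ?_ ?_ ?_
        · intro e he
          rw [mem_filter] at he ⊢
          exact ⟨e.2, he.2⟩
        · intro e _ e' _ h
          exact Subtype.ext h
        · intro e he
          rw [mem_filter] at he
          exact ⟨⟨e, he.1⟩, mem_filter.2 ⟨mem_univ _, he.2⟩, rfl⟩

end final

/-- The criterion, for every nonempty finite alphabet. -/
theorem exists_iff (A : Type*) [Fintype A] [DecidableEq A] [Nonempty A] (n l k : ℕ) [NeZero n] (hl : 1 ≤ l)
    (hk : 1 ≤ k) :
    (∃ a : ZMod n → A, IsGDB a l k ∧ IsBalanced a) ↔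
      Fintype.card A ∣ n ∧ (n : ℚ) / (Fintype.card A : ℚ) ^ l ≤ k := by
  have hm : 0 < Fintype.card A := Fintype.card_pos
  have hmq : (0 : ℚ) < (Fintype.card A : ℚ) ^ l := by positivity
  rw [div_le_iff₀ hmq]
  constructor
  · rintro ⟨a, ha, hb⟩
    obtain ⟨x⟩ := ‹Nonempty A›
    refine ⟨⟨_, (hb x).symm⟩, ?_⟩
    have h1 : n = ∑ w : Fin l → A, occurrences a w := by
      have h2 : n = (univ : Finset (ZMod n)).card := by rw [Finset.card_univ, ZMod.card]
      refine h2.trans ?_
      rw [Finset.card_eq_sum_card_fiberwise (f := fun i : ZMod n => fun j : Fin l => a (i + ((j : ℕ) : ZMod n)))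
        (t := univ) (by simp [Set.MapsTo])]
      refine Finset.sum_congr rfl fun w _ => ?_
      unfold occurrences
      congr 1
      ext i
      simp [funext_iff]
    have h3 : n ≤ k * Fintype.card A ^ l := by
      calc n = ∑ w : Fin l → A, occurrences a w := h1
        _ ≤ ∑ _w : Fin l → A, k := Finset.sum_le_sum fun w _ => ha w
        _ = k * Fintype.card A ^ l := by
          rw [Finset.sum_const, Finset.card_univ, Fintype.card_fun, Fintype.card_fin, smul_eq_mul, mul_comm]
    exact_mod_cast h3
  · rintro ⟨⟨t, ht⟩, h2⟩
    have h3 : n ≤ k * Fintype.card A ^ l := by exact_mod_cast h2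
    set m := Fintype.card A with hmdef
    have : NeZero m := ⟨hm.ne'⟩
    obtain ⟨p, rfl⟩ : ∃ p, l = p + 1 := ⟨l - 1, by omega⟩
    have h4 : t ≤ k * m ^ p := by
      rw [ht] at h3
      have h5 : m * t ≤ m * (k * m ^ p) := by
        calc m * t ≤ k * m ^ (p + 1) := h3
          _ = m * (k * m ^ p) := by ring
      exact Nat.le_of_mul_le_mul_left h5 hm
    obtain ⟨a, ha, hb⟩ := exists_seq (m := m) p k t n hk h4 ht
    let ε : ZMod m ≃ A := Fintype.equivOfCardEq (by rw [ZMod.card])
    refine ⟨fun i => ε (a i), ?_, ?_⟩
    · intro w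
      refine le_trans (le_of_eq ?_) (ha (fun j => ε.symm (w j)))
      unfold occurrences
      congr 1
      ext i
      simp [Equiv.eq_symm_apply]
    · intro x
      have h6 : (univ.filter fun i : ZMod n => ε (a i) = x) = (univ.filter fun i : ZMod n => a i = ε.symm x) := by
        ext i
        simp [Equiv.eq_symm_apply]
      rw [h6, hb]
      exact ht.symm

/-- **Main result.** Let `A` be an alphabet with `m ≥ 3` letters and let `n, l, k` be positive integers. A balanced
generalized de Bruijn sequence over `A` with parameters `(n, l, k)` exists if and only if `m ∣ n` and `k ≥ n / m ^ l`. -/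
theorem result (A : Type*) [Fintype A] [DecidableEq A] (hA : 3 ≤ Fintype.card A) (n l k : ℕ) [NeZero n] (hl : 1 ≤ l)
    (hk : 1 ≤ k) :
    (∃ a : ZMod n → A, IsGDB a l k ∧ IsBalanced a) ↔
      Fintype.card A ∣ n ∧ (n : ℚ) / (Fintype.card A : ℚ) ^ l ≤ k := by
  have : Nonempty A := Fintype.card_pos_iff.1 (by omega)
  exact exists_iff A n l k hl hk

end Pool.Agent.Results.MP_a9eae2_co.BalancedDeBruijn
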